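import Pool.Agent.W8.LS.Stm

/-! Project LS (helper8): `lam` is a Lagrangian immersion at regular points. -/

set_option autoImplicit false

open scoped Topology ContDiff
open Complex (I)
open Pool.Agent.W8.LS

namespace Pool.Agent.W494.LS

theorem not_sing (k l m r : ℤ) (N : ℕ) (s : ℝ) (z : ℂ) (hz : |z.re| < 1 / 2)
    (hs : Complex.sinh (2 * (Real.pi : ℂ) * z) ≠ 0) : ¬ sing (site k l m r (sheet N s z)) := by
  rintro ⟨k', l', m', r', s', c', h⟩
  have h1 := congrArg (fun P : V => P.2.2.1) h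
  simp only [site, sheet] at h1
  have h2 : z = (((k - k' : ℤ) : ℂ) + ((l - l' : ℤ) : ℂ) * I) / 2 := by
    push_cast
    linear_combination h1
  have h3 : z.re = ((k - k' : ℤ) : ℝ) / 2 := by
    rw [h2]
    have e : (((k - k' : ℤ) : ℂ) + ((l - l' : ℤ) : ℂ) * I) / 2 =
        ((((k - k' : ℤ) : ℝ) / 2 : ℝ) : ℂ) + ((((l - l' : ℤ) : ℝ) / 2 : ℝ) : ℂ) * I := by
      push_cast
      ring
    rw [e]
    simp
  rw [h3, abs_div, abs_two] at hz
  have h4 : |((k - k' : ℤ) : ℝ)| < 1 := by linarith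
  have h5 : |k - k'| < 1 := by exact_mod_cast h4
  have h6 : k - k' = 0 := Int.abs_lt_one_iff.1 h5
  rw [h6] at h2
  apply hs
  rw [h2]
  have h7 : 2 * (Real.pi : ℂ) * ((((0 : ℤ) : ℂ) + ((l - l' : ℤ) : ℂ) * I) / 2) =
      (((l - l' : ℤ) : ℂ) * (Real.pi : ℂ)) * I := by
    push_cast
    ring
  rw [h7, Complex.sinh_mul_I, Complex.sin_int_mul_pi, zero_mul]

theorem LamReg_proof : LamReg := by
  intro hLF hCI k l m r N s z hz hs
  obtain ⟨hF, hHf, _, hLoc, hLam⟩ := hLF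
  obtain ⟨_, _, _, _, _, hSite, _, hSC, _, _, _, _, _, _, _⟩ := hF
  obtain ⟨⟨hsm, hsym⟩, ⟨him, _⟩, hinv, _⟩ := hSite k l m r
  obtain ⟨Z, hZ0, hZ⟩ := hCI z hs
  set w₀ := Complex.cosh (2 * (Real.pi : ℂ) * z) with hw₀
  obtain ⟨O, hO1, hO2⟩ := hLoc hSC _ (not_sing k l m r N s z hz hs)
  set g : ℝ × ℂ → V := fun p => sheet N p.1 (Z p.2) with hg
  set σ : ℝ × ℂ → V := fun p => site k l m r (g p) with hσ
  have hev : ∀ᶠ p : ℝ × ℂ in 𝓝 (s, w₀), ContDiffAt ℂ ∞ Z p.2 ∧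
      Complex.cosh (2 * (Real.pi : ℂ) * Z p.2) = p.2 ∧ deriv Z p.2 ≠ 0 :=
    (continuous_snd.tendsto (s, w₀)).eventually hZ
  have hsmooth : ∀ p : ℝ × ℂ, ContDiffAt ℂ ∞ Z p.2 → ContDiffAt ℝ ∞ g p := by
    intro p hp
    have h1 : ContDiffAt ℝ ∞ (fun p : ℝ × ℂ => Z p.2) p :=
      ContDiffAt.comp p (hp.restrict_scalars ℝ) contDiffAt_snd
    have h2 : ContDiffAt ℝ ∞ (fun p : ℝ × ℂ => (Z p.2).re) p :=
      ContDiffAt.comp p Complex.reCLM.contDiff.contDiffAt h1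
    have h3 : ContDiffAt ℝ ∞ (fun p : ℝ × ℂ => hf (Z p.2).re) p :=
      ContDiffAt.comp p hHf.1.contDiffAt h2
    have h4 : ContDiffAt ℝ ∞ (fun p : ℝ × ℂ => (N : ℝ) * hf (Z p.2).re) p :=
      contDiffAt_const.mul h3
    have h5 : ContDiffAt ℝ ∞ (fun p : ℝ × ℂ => (((N : ℝ) * hf (Z p.2).re : ℝ) : ℂ)) p :=
      ContDiffAt.comp p Complex.ofRealCLM.contDiff.contDiffAt h4
    exact contDiffAt_fst.prodMk (contDiffAt_const.prodMk (h1.prodMk h5))
  have hZ₀ := hZ.self_of_nhds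
  -- the derivative of `g`
  set x : ℝ × ℂ := (s, w₀) with hx
  have hZd : HasDerivAt Z (deriv Z w₀) w₀ :=
    (hZ₀.1.differentiableAt (by simp)).hasDerivAt
  obtain ⟨L, hL, hLa⟩ : ∃ L : ℝ × ℂ →L[ℝ] ℂ, HasFDerivAt (fun p : ℝ × ℂ => Z p.2) L x ∧
      ∀ a, L a = a.2 * deriv Z w₀ := by
    refine ⟨_, HasFDerivAt.comp x (hZd.hasFDerivAt.restrictScalars ℝ)
      (hasFDerivAt_snd (𝕜 := ℝ) (E := ℝ) (F := ℂ)), fun a => ?_⟩
    simp
  have hre : HasFDerivAt (fun p : ℝ × ℂ => (Z p.2).re) (Complex.reCLM.comp L) x :=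
    HasFDerivAt.comp x Complex.reCLM.hasFDerivAt hL
  have hhf : HasDerivAt hf (deriv hf (Z x.2).re) (Z x.2).re :=
    (hHf.1.differentiable (by simp)).differentiableAt.hasDerivAt
  have h3 : HasFDerivAt (fun p : ℝ × ℂ => hf (Z p.2).re)
      (deriv hf (Z x.2).re • Complex.reCLM.comp L) x :=
    HasDerivAt.comp_hasFDerivAt (h₂ := hf) (f := fun p : ℝ × ℂ => (Z p.2).re) x hhf hre
  have h4 : HasFDerivAt (fun p : ℝ × ℂ => (N : ℝ) * hf (Z p.2).re)
      ((N : ℝ) • (deriv hf (Z x.2).re • Complex.reCLM.comp L)) x := h3.const_mul _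
  have h5 : HasFDerivAt (fun p : ℝ × ℂ => (((N : ℝ) * hf (Z p.2).re : ℝ) : ℂ))
      (Complex.ofRealCLM.comp ((N : ℝ) • (deriv hf (Z x.2).re • Complex.reCLM.comp L))) x :=
    HasFDerivAt.comp x Complex.ofRealCLM.hasFDerivAt h4
  have hgd : HasFDerivAt g ((ContinuousLinearMap.fst ℝ ℝ ℂ).prod
      ((0 : ℝ × ℂ →L[ℝ] ℝ).prod (L.prod (Complex.ofRealCLM.comp ((N : ℝ) •
        (deriv hf (Z x.2).re • Complex.reCLM.comp L)))))) x :=
    hasFDerivAt_fst.prodMk ((hasFDerivAt_const _ _).prodMk (hL.prodMk h5))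
  set g' := (ContinuousLinearMap.fst ℝ ℝ ℂ).prod
      ((0 : ℝ × ℂ →L[ℝ] ℝ).prod (L.prod (Complex.ofRealCLM.comp ((N : ℝ) •
        (deriv hf (Z x.2).re • Complex.reCLM.comp L))))) with hg'
  have hsd : HasFDerivAt (site k l m r) (fderiv ℝ (site k l m r) (g x)) (g x) :=
    (hsm.differentiable (by simp)).differentiableAt.hasFDerivAt
  have hid : HasFDerivAt (siteInv k l m r) (fderiv ℝ (siteInv k l m r) (σ x)) (σ x) :=
    (him.differentiable (by simp)).differentiableAt.hasFDerivAt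
  have hσd : HasFDerivAt σ ((fderiv ℝ (site k l m r) (g x)).comp g') x := hsd.comp x hgd
  have hσf : fderiv ℝ σ x = (fderiv ℝ (site k l m r) (g x)).comp g' := hσd.fderiv
  have hback : (fderiv ℝ (siteInv k l m r) (σ x)).comp (fderiv ℝ σ x) = g' := by
    have h1 : HasFDerivAt (fun p => siteInv k l m r (σ p))
        ((fderiv ℝ (siteInv k l m r) (σ x)).comp (fderiv ℝ σ x)) x := by
      refine HasFDerivAt.comp x hid ?_
      rw [hσf]
      exact hσd
    have h2 : (fun p => siteInv k l m r (σ p)) = g := by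
      funext p
      exact hinv (g p)
    rw [h2] at h1
    exact h1.unique hgd
  refine ⟨Idx.reg O hO2, σ, ?_, ?_, ?_, ?_, ?_⟩
  · show site k l m r (sheet N s (Z w₀)) ∈ O
    rw [hZ0]
    exact hO1
  · filter_upwards [hev] with p hp
    exact ContDiffAt.comp p hsm.contDiffAt (hsmooth p hp.1)
  · filter_upwards [hev] with p hp
    exact hLam k l m r N p.1 (Z p.2) p.2 hp.2.1
  · intro a b
    rw [hσf]
    have h6 := hsym (g x) (g' a) (g' b)
    rw [ContinuousLinearMap.comp_apply, ContinuousLinearMap.comp_apply, h6]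
    simp [om, hg']
    ring
  · intro a ha
    have h6 : g' a = 0 := by
      rw [← hback, ContinuousLinearMap.comp_apply, ha, map_zero]
    have h7 : a.1 = 0 := congrArg (fun P : V => P.1) h6
    have h8 : L a = 0 := congrArg (fun P : V => P.2.2.1) h6
    rw [hLa] at h8
    have h9 : a.2 = 0 := by
      rcases mul_eq_zero.1 h8 with h | h
      · exact h
      · exact absurd h hZ₀.2.2
    exact Prod.ext h7 h9

end Pool.Agent.W494.LS
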